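import Pool.Agent.H458Z.Cvx.Prob

set_option autoImplicit false

namespace Pool.Agent.Results.MP_856808_pr.ATight

open MeasureTheory ProbabilityTheory Pool.Agent.H458Z.Cvx

/-- The value at the left end point of the univariate convex least squares estimator is tight. -/
theorem result (f : ℝ → ℝ) (_hconv : ConvexOn ℝ (Set.Icc 0 1) f)
    (hcont : ContinuousOn f (Set.Icc 0 1)) (σ : ℝ) (hσ : 0 < σ)
    (Ω : ℕ → Type) [∀ n, MeasurableSpace (Ω n)] (P : ∀ n, Measure (Ω n))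
    [∀ n, IsProbabilityMeasure (P n)] (ε : ∀ n, Fin n → Ω n → ℝ)
    (hind : ∀ n, iIndepFun (ε n) (P n))
    (hlaw : ∀ n i, HasLaw (ε n i) (gaussianReal 0 (Real.toNNReal (σ ^ 2))) (P n))
    (θ : ∀ n, Ω n → Fin n → ℝ)
    (hθ : ∀ n, 3 ≤ n → ∀ ω, IsLSE n (fun i => f (design n i) + ε n i ω) (θ n ω))
    (η : ℝ) (hη : 0 < η) :
    ∃ M : ℝ, (⨆ (n : ℕ) (hn : 3 ≤ n),
      P n {ω | M < |θ n ω ⟨0, lt_of_lt_of_le three_pos hn⟩|}) < ENNReal.ofReal η :=
  tight f hcont σ hσ Ω P ε hind hlaw θ hθ η hη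

end Pool.Agent.Results.MP_856808_pr.ATight
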